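import Mathlib
import Pool.Agent.KS6_6.XI.M

/-!
# Exactly `r` barycentric subdivisions are needed for the cross-index to reach the mapping index

The definitions (`GComplex`, its geometric realization, `GComplex.IsFree`, `E G k`, `ind`, `GPoset`, `Q G n`, `Xind`, the
face poset and the order complex) are in `Pool.Graph.R_pool_sql_team_seeded_3997aac3.Q151.XI.Defs`; `GComplex.sd` (the
order complex of the face poset) is in `Q151.XI.Sd` of the same folder. So the face poset of `GComplex.sd^[r] K` is
`F(sd^r(K))`.
-/

set_option autoImplicit false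

namespace Pool.Agent.Results.MP_172133_co.ExactSubdivisions

open Q151.XI

/-- Let `G` be a nontrivial finite group and `m ≥ 1`.

* For every `r` and `n` there is a finite free `G`-complex `K` with `ind K = m` and `Xind F(sd^r K) = n` exactly if
  `m ≤ n`: all the pairs allowed by `ind ≤ Xind` occur, for every number `r` of subdivisions.
* For every `r` and `n > m` there is such a `K` for which the `(r + 1)`-st subdivision lowers the cross-index:
  `Xind F(sd^r K) = n > Xind F(sd^(r+1) K) ≥ m`.
* For every `r` there is a finite free `G`-complex `K` with `ind K = m` for which the cross-index is equal to the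
  mapping index after `s` subdivisions if and only if `s ≥ r`: exactly `r` subdivisions are needed.

For every finite free `G`-complex of mapping index `m` the cross-indices of the subdivisions do not increase and are
eventually equal to `m`. -/
theorem result (G : Type) [Group G] [Fintype G] [Nontrivial G] (m : ℕ) (hm : 1 ≤ m) :
    (∀ r n : ℕ, (∃ K : GComplex G, K.IsFree ∧ ind G K.Realization = m ∧ Xind (GComplex.sd^[r] K).facePoset = n) ↔
      m ≤ n) ∧
    (∀ r n : ℕ, m < n → ∃ K : GComplex G, K.IsFree ∧ ind G K.Realization = m ∧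
      Xind (GComplex.sd^[r] K).facePoset = n ∧ m ≤ Xind (GComplex.sd^[r + 1] K).facePoset ∧
      Xind (GComplex.sd^[r + 1] K).facePoset < n) ∧
    (∀ r : ℕ, ∃ K : GComplex G, K.IsFree ∧ ind G K.Realization = m ∧
      ∀ s : ℕ, Xind (GComplex.sd^[s] K).facePoset = ind G K.Realization ↔ r ≤ s) := by
  have hG : 2 ≤ Fintype.card G := Fintype.one_lt_card
  refine ⟨fun r n => ⟨?_, fun h => KS6_6.XI.exact_pairs hG r hm h⟩, fun r n h => ?_, fun r => ?_⟩
  · rintro ⟨K, -, h1, h2⟩
    have h3 := KS6_6.XI.xind_lower h1 r
    rw [h2] at h3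
    exact_mod_cast h3
  · obtain ⟨K, h1, h2, h3, h4⟩ := KS6_6.XI.drop hG r hm h
    exact ⟨K, h1, h2, h3, KS6_6.XI.xind_lower h2 _, h4⟩
  · obtain ⟨K, h1, h2, h3⟩ := KS6_6.XI.exact_number hG r hm
    exact ⟨K, h1, h2, fun s => by rw [h2]; exact h3 s⟩

end Pool.Agent.Results.MP_172133_co.ExactSubdivisions
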